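import Pool.Agent.Y744.GP.Fam

/-! Continuum many pairwise projectively inequivalent members. -/

set_option autoImplicit false

open Cardinal
open Pool.Agent.Results.MP_586029_ag.GeprociMatroid

namespace Pool.Agent.Y744.GP

lemma continuum_le_ai {k : ℕ} (hk : 0 < k) :
    𝔠 ≤ #{t : Fin k → ℂ // AlgebraicIndependent ℚ t} := by
  obtain ⟨ι, v, hv⟩ := exists_isTranscendenceBasis' ℚ ℂ
  have hι : #ℂ = #ι := IsAlgClosed.cardinal_eq_cardinal_transcendence_basis_of_aleph0_lt' v hv
    (by simp) (by rw [mk_complex]; exact aleph0_lt_continuum)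
  rw [mk_complex] at hι
  have he : #(Fin k ⊕ ι) ≤ #ι := by
    rw [mk_sum, mk_fin, ← hι]
    simp
  obtain ⟨e⟩ := Cardinal.le_def _ _ |>.mp he
  let z : Fin k := ⟨0, hk⟩
  let w : ι → Fin k → ι := fun i j => e (if j = z then Sum.inr i else Sum.inl j)
  have hw : ∀ i, Function.Injective (w i) := by
    intro i j j' h
    have h1 := e.injective h
    split_ifs at h1 with h2 h3 h3
    · rw [h2, h3]
    · exact Sum.inl_injective h1
  rw [hι]
  refine mk_le_of_injective (f := fun i => ⟨fun j => v (w i j), hv.1.comp (w i) (hw i)⟩) ?_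
  intro i i' h
  have h1 := congrFun (Subtype.mk.inj h) z
  have h2 := e.injective (hv.1.injective h1)
  simpa using h2

theorem exists_large {k : ℕ} (hk : 0 < k) : ∃ T : Set (Fin k → ℂ), #T = 𝔠 ∧
    (∀ t ∈ T, AlgebraicIndependent ℚ t) ∧
    ∀ t ∈ T, ∀ t' ∈ T, ProjectivelyEquivalent (ZZ t) (ZZ t') → t = t' := by
  let A : Type := {t : Fin k → ℂ // AlgebraicIndependent ℚ t}
  let S : Setoid A :=
    { r := fun t t' => ProjectivelyEquivalent (ZZ t.1) (ZZ t'.1)
      iseqv := ⟨fun t => pe_refl _, fun h => pe_symm h, fun h h' => pe_trans h h'⟩ }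
  have hQ : 𝔠 ≤ #(Quotient S) := by
    by_contra hlt
    push Not at hlt
    have h1 : #A ≤ #(Quotient S) * ℵ₀ := by
      apply mk_le_mk_mul_of_mk_preimage_le (Quotient.mk S)
      intro q
      obtain ⟨t0, rfl⟩ := Quotient.exists_rep q
      apply le_of_lt
      rw [lt_aleph0_iff_set_finite]
      have h2 := (finite_class t0.1).preimage (f := (Subtype.val : A → (Fin k → ℂ)))
        Subtype.val_injective.injOn
      refine h2.subset ?_
      intro t ht
      have h3 : Quotient.mk S t = Quotient.mk S t0 := ht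
      exact Quotient.exact h3
    have h2 := mul_lt_of_lt aleph0_le_continuum hlt aleph0_lt_continuum
    exact absurd (continuum_le_ai hk) (not_le.mpr (h1.trans_lt h2))
  let f : Quotient S → (Fin k → ℂ) := fun q => (Quotient.out q).1
  have hf : Function.Injective f := by
    intro q q' h
    have h1 : Quotient.out q = Quotient.out q' := Subtype.ext h
    rw [← Quotient.out_eq q, h1, Quotient.out_eq]
  refine ⟨Set.range f, ?_, ?_, ?_⟩
  · apply le_antisymm
    · calc #(Set.range f) ≤ #(Fin k → ℂ) := mk_set_le _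
        _ = 𝔠 ^ (k : Cardinal) := by simp [mk_complex]
        _ ≤ 𝔠 ^ ℵ₀ := power_le_power_left continuum_ne_zero (le_of_lt natCast_lt_aleph0)
        _ = 𝔠 := continuum_power_aleph0
    · rw [mk_range_eq f hf]
      exact hQ
  · rintro _ ⟨q, rfl⟩
    exact (Quotient.out q).2
  · rintro _ ⟨q, rfl⟩ _ ⟨q', rfl⟩ h
    have h1 : Quotient.mk S (Quotient.out q) = Quotient.mk S (Quotient.out q') :=
      Quotient.sound h
    rw [Quotient.out_eq, Quotient.out_eq] at h1
    rw [h1]

end Pool.Agent.Y744.GP
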