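import Pool.Agent.Y744.GP.Pts

/-! The families: matroids and projective equivalence. -/

set_option autoImplicit false

open MvPolynomial
open Pool.Agent.Helper26.GeprociPts Pool.Agent.Helper26.GeprociCI
open Pool.Agent.Results.MP_586029_ag.GeprociMatroid

namespace Pool.Agent.Y744.GP

section
variable {R : Type*} [CommRing R] {k : ℕ}

/-- the parameters `0, t 0, …, t (k - 1)` -/
def ext0 (t : Fin k → R) : Fin (k + 1) → R := Fin.cons 0 t

lemma ext0_zero (t : Fin k → R) : ext0 t 0 = 0 := rfl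

lemma ext0_succ (t : Fin k → R) (l : Fin k) : ext0 t l.succ = t l := rfl

lemma map_ext0 {R' : Type*} [CommRing R'] (φ : R →+* R') (t : Fin k → R) (j : Fin (k + 1)) :
    φ (ext0 t j) = ext0 (fun l => φ (t l)) j := by
  refine Fin.cases ?_ (fun l => ?_) j
  · simp [ext0_zero]
  · simp [ext0_succ]

end

variable {k : ℕ}

lemma ext0_test {J : Fin (k + 1)} (hJ : J ≠ 0) (j : Fin (k + 1)) :
    ext0 (fun l : Fin k => if l.succ = J then (2 : ℚ) else 0) j = if j = J then 2 else 0 := by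
  refine Fin.cases ?_ (fun l => ?_) j
  · rw [ext0_zero, if_neg (Ne.symm hJ)]
  · rw [ext0_succ]

lemma ai_ne {t : Fin k → ℂ} (ht : AlgebraicIndependent ℚ t) (p : MvPolynomial (Fin k) ℚ)
    (r : Fin k → ℚ) (h : eval r p ≠ 0) : aeval t p ≠ 0 := by
  intro h0
  have : p = 0 := ht.eq_zero_of_aeval_eq_zero p h0
  rw [this, map_zero] at h
  exact h rfl

/-- the generic points -/
noncomputable def gs : Fin (k + 1) → MvPolynomial (Fin k) ℚ := ext0 X

lemma aeval_gs (t : Fin k → ℂ) (j : Fin (k + 1)) : aeval t (gs j) = ext0 t j := by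
  have h := map_ext0 (aeval t : MvPolynomial (Fin k) ℚ →ₐ[ℚ] ℂ).toRingHom X j
  simpa [gs] using h

lemma eval_gs (r : Fin k → ℚ) (j : Fin (k + 1)) : eval r (gs j) = ext0 r j := by
  have h := map_ext0 (eval r) X j
  simpa [gs] using h

lemma aeval_pA (t : Fin k → ℂ) (j : Fin (k + 1)) (a : Fin 3) :
    aeval t (pA (gs j) a) = pA (ext0 t j) a := by
  have h := map_pA (aeval t : MvPolynomial (Fin k) ℚ →ₐ[ℚ] ℂ).toRingHom (gs j) a
  rw [← aeval_gs]
  exact h

lemma aeval_pB (t : Fin k → ℂ) (j : Fin (k + 1)) (a : Fin 3) :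
    aeval t (pB (gs j) a) = pB (ext0 t j) a := by
  have h := map_pB (aeval t : MvPolynomial (Fin k) ℚ →ₐ[ℚ] ℂ).toRingHom (gs j) a
  rw [← aeval_gs]
  exact h

lemma eval_pA (r : Fin k → ℚ) (j : Fin (k + 1)) (a : Fin 3) :
    eval r (pA (gs j) a) = pA (ext0 r j) a := by
  rw [map_pA, eval_gs]

lemma eval_pB (r : Fin k → ℚ) (j : Fin (k + 1)) (a : Fin 3) :
    eval r (pB (gs j) a) = pB (ext0 r j) a := by
  rw [map_pB, eval_gs]

lemma test_A (a : Fin 3) : pA (2 : ℚ) a ≠ 0 ∧ pA (0 : ℚ) a ≠ 0 := by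
  fin_cases a <;> norm_num [pA]

lemma test_same (a a' : Fin 3) (h : a ≠ a') : pA (2 : ℚ) a * pB 2 a' - pA 2 a' * pB 2 a ≠ 0 ∧
    pA (0 : ℚ) a * pB 0 a' - pA 0 a' * pB 0 a ≠ 0 := by
  revert h
  fin_cases a <;> fin_cases a' <;> simp [pA, pB] <;> norm_num

lemma test_diff (a a' : Fin 3) : pA (2 : ℚ) a * pB 0 a' - pA 0 a' * pB 2 a ≠ 0 ∧
    pA (0 : ℚ) a * pB 2 a' - pA 2 a' * pB 0 a ≠ 0 := by
  fin_cases a <;> fin_cases a' <;> simp [pA, pB] <;> norm_num

lemma good_of_ai {t : Fin k → ℂ} (ht : AlgebraicIndependent ℚ t) : GoodS (ext0 t) := by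
  have two : ∀ j : Fin (k + 1), ext0 (fun _ : Fin k => (2 : ℚ)) j = 2 ∨
      ext0 (fun _ : Fin k => (2 : ℚ)) j = 0 := by
    intro j
    refine Fin.cases (Or.inr rfl) (fun l => Or.inl rfl) j
  refine ⟨?_, ?_, ?_⟩
  · intro j a
    rw [← aeval_pA]
    apply ai_ne ht _ (fun _ => 2)
    rw [eval_pA]
    rcases two j with h | h <;> rw [h]
    · exact (test_A a).1
    · exact (test_A a).2
  · intro j a j' a' hja
    have e1 : pA (ext0 t j) a * pB (ext0 t j') a' - pA (ext0 t j') a' * pB (ext0 t j) a =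
        aeval t (pA (gs j) a * pB (gs j') a' - pA (gs j') a' * pB (gs j) a :
          MvPolynomial (Fin k) ℚ) := by
      rw [map_sub, map_mul, map_mul, aeval_pA, aeval_pB, aeval_pA, aeval_pB]
    have e2 : ∀ r : Fin k → ℚ, eval r (pA (gs j) a * pB (gs j') a' - pA (gs j') a' * pB (gs j) a) =
        pA (ext0 r j) a * pB (ext0 r j') a' - pA (ext0 r j') a' * pB (ext0 r j) a := by
      intro r
      rw [map_sub, map_mul, map_mul, eval_pA, eval_pB, eval_pA, eval_pB]
    rw [e1]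
    by_cases hj : j = j'
    · subst hj
      have ha : a ≠ a' := fun h => hja (by rw [h])
      apply ai_ne ht _ (fun _ => 2)
      rw [e2]
      rcases two j with h | h <;> rw [h]
      · exact (test_same a a' ha).1
      · exact (test_same a a' ha).2
    · by_cases hj0 : j = 0
      · have hj' : j' ≠ 0 := fun h => hj (hj0.trans h.symm)
        apply ai_ne ht _ (fun l : Fin k => if l.succ = j' then (2 : ℚ) else 0)
        rw [e2, ext0_test hj', ext0_test hj', if_pos rfl, if_neg hj]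
        exact (test_diff a a').2
      · apply ai_ne ht _ (fun l : Fin k => if l.succ = j then (2 : ℚ) else 0)
        rw [e2, ext0_test hj0, ext0_test hj0, if_pos rfl, if_neg (Ne.symm hj)]
        exact (test_diff a a').1
  · intro j
    refine Fin.cases (Or.inl rfl) (fun l => Or.inr ?_) j
    rw [ext0_succ]
    have e1 : 4 * t l * (t l ^ 2 - 1) * (9 * t l ^ 2 - 1) =
        aeval t (4 * X l * (X l ^ 2 - 1) * (9 * X l ^ 2 - 1) : MvPolynomial (Fin k) ℚ) := by
      simp [map_ofNat]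
    rw [e1]
    apply ai_ne ht _ (fun _ => 2)
    simp [map_ofNat]
    norm_num

/-! ### The matroids -/

/-- index set of the points -/
abbrev Idx (k : ℕ) : Type := Fin 4 × Fin (k + 1) × Fin 3

/-- the vectors -/
noncomputable def vv (t : Fin k → ℂ) (x : Idx k) : V4 := dp (ext0 t x.2.1) x.1 x.2.2

/-- The matrix of four points. -/
noncomputable def cmat (t : Fin k → ℂ) (g : Fin 4 → Idx k) : Matrix (Fin 4) (Fin 4) ℂ :=
  Matrix.of fun r l => vv t (g r) l

/-- The matrix of polynomials. -/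
noncomputable def pmat (g : Fin 4 → Idx k) :
    Matrix (Fin 4) (Fin 4) (MvPolynomial (Fin k) ℚ) :=
  Matrix.of fun r l => dp (gs (g r).2.1) (g r).1 (g r).2.2 l

lemma aeval_det (t : Fin k → ℂ) (g : Fin 4 → Idx k) :
    aeval t (pmat g).det = (cmat t g).det := by
  have h : aeval t (pmat g).det =
      (aeval t : MvPolynomial (Fin k) ℚ →ₐ[ℚ] ℂ).toRingHom (pmat g).det := rfl
  rw [h, RingHom.map_det]
  congr 1
  ext r l
  change (aeval t : MvPolynomial (Fin k) ℚ →ₐ[ℚ] ℂ).toRingHom (dp _ _ _ l) = _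
  rw [map_dp]
  have h2 : (aeval t : MvPolynomial (Fin k) ℚ →ₐ[ℚ] ℂ).toRingHom (gs (g r).2.1) =
      ext0 t (g r).2.1 := aeval_gs t _
  rw [h2]
  rfl

lemma linInd_iff_det (t : Fin k → ℂ) (g : Fin 4 → Idx k) :
    LinearIndependent ℂ (fun r => vv t (g r)) ↔ (cmat t g).det ≠ 0 := by
  rw [← isUnit_iff_ne_zero, ← Matrix.isUnit_iff_isUnit_det,
    ← Matrix.linearIndependent_rows_iff_isUnit]
  rfl

lemma linInd_transfer {t t' : Fin k → ℂ} (ht' : AlgebraicIndependent ℚ t')
    (g : Fin 4 → Idx k) (h : LinearIndependent ℂ (fun r => vv t (g r))) :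
    LinearIndependent ℂ (fun r => vv t' (g r)) := by
  rw [linInd_iff_det, ← aeval_det] at h ⊢
  intro h0
  apply h
  have : (pmat g).det = 0 := ht'.eq_zero_of_aeval_eq_zero _ h0
  rw [this, map_zero]

lemma span_vv (t : Fin k → ℂ) : Submodule.span ℂ (Set.range (vv t)) = ⊤ := by
  rw [eq_top_iff, ← (Pi.basisFun ℂ (Fin 4)).span_eq, Submodule.span_le]
  rintro _ ⟨i, rfl⟩
  apply Submodule.subset_span
  refine ⟨(i, 0, 0), ?_⟩
  simp [vv, ext0_zero, dp_zero, Pi.basisFun_apply]

lemma linIndepOn_transfer {t t' : Fin k → ℂ} (ht' : AlgebraicIndependent ℚ t')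
    (A : Set (Idx k)) (h : LinearIndepOn ℂ (vv t) A) : LinearIndepOn ℂ (vv t') A := by
  obtain ⟨B, -, hAB, hspan, hB⟩ := exists_linearIndepOn_extension h (Set.subset_univ A)
  apply LinearIndepOn.mono _ hAB
  have htop : Submodule.span ℂ (vv t '' B) = ⊤ := by
    rw [eq_top_iff, ← span_vv t, Submodule.span_le, ← Set.image_univ]
    exact hspan
  have hcard : Nat.card B = 4 := by
    have h1 : Module.finrank ℂ (Submodule.span ℂ (vv t '' B)) = 4 := by
      rw [htop, finrank_top]; simp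
    have h2 : vv t '' B = Set.range (fun b : B => vv t b) := by
      ext x; simp
    have : Fintype B := Fintype.ofFinite B
    rw [h2, finrank_span_eq_card hB] at h1
    rw [Nat.card_eq_fintype_card]
    exact h1
  let g : Fin 4 ≃ B := (Finite.equivFinOfCardEq hcard).symm
  have h1 : LinearIndependent ℂ (fun r => vv t (g r)) := hB.comp g g.injective
  have h2 : LinearIndependent ℂ (fun r => vv t' (g r)) :=
    linInd_transfer ht' (fun r => (g r : Idx k)) h1
  have h3 := h2.comp g.symm g.symm.injective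
  change LinearIndependent ℂ (fun b : B => vv t' b)
  convert h3 using 2 with b
  simp

/-- The family. -/
noncomputable def ZZ (t : Fin k → ℂ) : Set P3 := Zs (ext0 t)

lemma mk_injective {t : Fin k → ℂ} (ht : GoodS (ext0 t)) : Function.Injective
    (fun x : Idx k => Projectivization.mk ℂ (dp (ext0 t x.2.1) x.1 x.2.2) (dp_ne_zero _ _ _)) := by
  rintro ⟨i, j, a⟩ ⟨i', j', a'⟩ h
  simp only at h
  rw [Projectivization.mk_eq_mk_iff'] at h
  obtain ⟨c, hc⟩ := h
  obtain ⟨h1, h2, h3⟩ := dp_inj ht hc.symm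
  rw [h1, h2, h3]

lemma ncard_ZZ {t : Fin k → ℂ} (ht : GoodS (ext0 t)) : (ZZ t).ncard = 12 * (k + 1) := by
  unfold ZZ Zs
  rw [← Set.image_univ, Set.ncard_image_of_injective _ (mk_injective ht), Set.ncard_univ,
    Nat.card_eq_fintype_card, Fintype.card_prod, Fintype.card_prod, Fintype.card_fin,
    Fintype.card_fin, Fintype.card_fin]
  ring

/-- The enumeration of the points. -/
noncomputable def EE {t : Fin k → ℂ} (ht : GoodS (ext0 t)) : Idx k ≃ ZZ t :=
  Equiv.ofInjective _ (mk_injective ht)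

lemma EE_rep {t : Fin k → ℂ} (ht : GoodS (ext0 t)) (x : Idx k) :
    ∃ a : ℂˣ, a • vv t x = (EE ht x : P3).rep :=
  Projectivization.exists_smul_eq_mk_rep ℂ (dp (ext0 t x.2.1) x.1 x.2.2) (dp_ne_zero _ _ _)

lemma indep_iff {t : Fin k → ℂ} (ht : GoodS (ext0 t)) (A : Set (Idx k)) :
    LinearIndependent ℂ (fun x : A => (EE ht x : P3).rep) ↔ LinearIndepOn ℂ (vv t) A := by
  choose a ha using EE_rep ht
  have : (fun x : A => (EE ht x : P3).rep) = (fun x : A => a x) • (fun x : A => vv t x) := by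
    funext x
    exact (ha x).symm
  rw [this]
  exact LinearIndependent.units_smul_iff (fun x : A => vv t x) (fun x : A => a x)

lemma matroidsIso {t t' : Fin k → ℂ} (h : AlgebraicIndependent ℚ t)
    (h' : AlgebraicIndependent ℚ t') : MatroidsIsomorphic (ZZ t) (ZZ t') := by
  have ht := good_of_ai h
  have ht' := good_of_ai h'
  refine ⟨(EE ht).symm.trans (EE ht'), fun A => ?_⟩
  set A' : Set (Idx k) := {x | EE ht x ∈ A} with hA'
  let φ : A' ≃ A := (EE ht).subtypeEquiv (fun s => Iff.rfl)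
  have h1 : LinearIndependent ℂ (fun a : A => (a.1 : P3).rep) ↔ LinearIndepOn ℂ (vv t) A' := by
    rw [← indep_iff ht, ← linearIndependent_equiv φ]
    rfl
  have h2 : LinearIndependent ℂ (fun a : A => ((EE ht).symm.trans (EE ht') a.1 : P3).rep) ↔
      LinearIndepOn ℂ (vv t') A' := by
    rw [← indep_iff ht', ← linearIndependent_equiv φ]
    have : ((fun a : A => ((EE ht).symm.trans (EE ht') a.1 : P3).rep) ∘ φ) =
        fun s : A' => (EE ht' s : P3).rep := by
      funext s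
      simp [φ]
    rw [this]
  rw [h1, h2]
  exact ⟨linIndepOn_transfer h' A', linIndepOn_transfer h A'⟩

/-! ### Projective equivalence -/

lemma finite_class (t0 : Fin k → ℂ) :
    {t : Fin k → ℂ | ProjectivelyEquivalent (ZZ t) (ZZ t0)}.Finite := by
  by_contra hcon
  set T : Set (Fin k → ℂ) := {t : Fin k → ℂ | ProjectivelyEquivalent (ZZ t) (ZZ t0)} with hT
  have hTinf : Infinite T := Set.infinite_coe_iff.mpr hcon
  have hequiv : ∀ t : T, ∃ g : V4 ≃ₗ[ℂ] V4,
      Projectivization.map g.toLinearMap g.injective '' (ZZ (t : Fin k → ℂ)) = ZZ t0 :=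
    fun t => t.2
  choose g hg using hequiv
  have hidx : ∀ (t : T) (x : Fin (k + 1) × Fin 3), ∃ y : Idx k, ∃ c : ℂ, c ≠ 0 ∧
      g t (dp (ext0 (t : Fin k → ℂ) x.1) 0 x.2) = c • vv t0 y := by
    intro t x
    have h1 : g t (dp (ext0 (t : Fin k → ℂ) x.1) 0 x.2) ≠ 0 := by
      rw [Ne, (g t).map_eq_zero_iff]
      exact dp_ne_zero _ _ _
    have h2 : Projectivization.mk ℂ (g t (dp (ext0 (t : Fin k → ℂ) x.1) 0 x.2)) h1 ∈ ZZ t0 := by
      rw [← hg t]
      exact ⟨_, ⟨(0, x.1, x.2), rfl⟩, rfl⟩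
    obtain ⟨i, j, a, c, hc, h3⟩ := mem_Zs h1 h2
    exact ⟨(i, j, a), c, hc, h3⟩
  choose s c hc hs using hidx
  obtain ⟨t, t', htt, hst⟩ := Finite.exists_ne_map_eq_of_infinite s
  apply htt
  apply Subtype.ext
  have hmap : ∀ x : Fin (k + 1) × Fin 3,
      (g t).trans (g t').symm (dp (ext0 (t : Fin k → ℂ) x.1) 0 x.2) =
      (c t x * (c t' x)⁻¹) • dp (ext0 (t' : Fin k → ℂ) x.1) 0 x.2 := by
    intro x
    have h1 : g t' ((c t x * (c t' x)⁻¹) • dp (ext0 (t' : Fin k → ℂ) x.1) 0 x.2) =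
        g t (dp (ext0 (t : Fin k → ℂ) x.1) 0 x.2) := by
      rw [map_smul, hs, hs, hst, smul_smul, mul_assoc, inv_mul_cancel₀ (hc t' x), mul_one]
    rw [LinearEquiv.trans_apply, ← h1, LinearEquiv.symm_apply_apply]
  have hp : ∀ (r : ℂ) (a : Fin 3), dp r 0 a =
      pA r a • (Pi.single 0 1 : V4) + pB r a • (fun l => (ff 0 l : ℂ) : V4) := by
    intro r a
    funext l
    fin_cases l <;> simp [dp, lpt, ee, ff]
  have hli : ∀ α β : ℂ, α • (Pi.single 0 1 : V4) + β • (fun l => (ff 0 l : ℂ) : V4) = 0 →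
      α = 0 ∧ β = 0 := by
    intro α β h
    have h0 := congrFun h 0
    have h1 := congrFun h 1
    simp [ff] at h0 h1
    exact ⟨h0, h1⟩
  have e0 := hmap (0, 0)
  have e1 := hmap (0, 1)
  have e2 := hmap (0, 2)
  funext l
  have e3 := hmap (l.succ, 0)
  simp only [ext0_zero, ext0_succ] at e0 e1 e2 e3
  rw [hp, hp] at e3
  rw [hp] at e0 e1 e2
  refine fix_line (h := (g t).trans (g t').symm) (e := Pi.single 0 1)
    (f := fun k => (ff 0 k : ℂ)) hli (l0 := c t (0, 0) * (c t' (0, 0))⁻¹)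
    (l1 := c t (0, 1) * (c t' (0, 1))⁻¹)
    (l2 := c t (0, 2) * (c t' (0, 2))⁻¹) (l3 := c t (l.succ, 0) * (c t' (l.succ, 0))⁻¹) ?_ ?_ ?_ ?_
  · simpa [pA, pB] using e0
  · simpa [pA, pB] using e1
  · simpa [pA, pB, ← sub_eq_add_neg] using e2
  · simpa [pA, pB] using e3

lemma pe_symm {Z Z' : Set P3} (h : ProjectivelyEquivalent Z Z') : ProjectivelyEquivalent Z' Z := by
  obtain ⟨g, rfl⟩ := h
  refine ⟨g.symm, ?_⟩
  rw [Set.image_image]
  convert Set.image_id Z using 1
  refine Set.image_congr fun x _ => ?_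
  induction x using Projectivization.ind with
  | h v hv =>
    rw [Projectivization.map_mk, Projectivization.map_mk]
    simp

lemma pe_trans {Z Z' Z'' : Set P3} (h : ProjectivelyEquivalent Z Z')
    (h' : ProjectivelyEquivalent Z' Z'') : ProjectivelyEquivalent Z Z'' := by
  obtain ⟨g, rfl⟩ := h
  obtain ⟨g', rfl⟩ := h'
  refine ⟨g.trans g', ?_⟩
  rw [Set.image_image]
  refine Set.image_congr fun x _ => ?_
  induction x using Projectivization.ind with
  | h v hv =>
    rw [Projectivization.map_mk, Projectivization.map_mk, Projectivization.map_mk]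
    rfl

lemma pe_refl (Z : Set P3) : ProjectivelyEquivalent Z Z := by
  refine ⟨LinearEquiv.refl ℂ V4, ?_⟩
  convert Set.image_id Z using 1
  refine Set.image_congr fun x _ => ?_
  induction x using Projectivization.ind with
  | h v hv =>
    rw [Projectivization.map_mk]
    rfl

end Pool.Agent.Y744.GP
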