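import Pool.Agent.Results.MP_586029_ag.GeprociMatroid

/-! Unions of `D₄` configurations on the same four skew lines: they are geproci. -/

set_option autoImplicit false

open MvPolynomial
open Pool.Agent.Helper26.GeprociPts Pool.Agent.Helper26.GeprociCI
open Pool.Agent.Results.MP_586029_ag.GeprociMatroid

namespace Pool.Agent.Y744.GP

section
variable {R : Type*} [CommRing R]

/-- the first coordinates of the three points with parameter `s` -/
def pA (s : R) : Fin 3 → R := ![1, 1 - 3 * s, 1 + 3 * s]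

/-- the second coordinates of the three points with parameter `s` -/
def pB (s : R) : Fin 3 → R := ![s, 1 + s, s - 1]

/-- The `a`-th point on the `i`-th line of the `D₄` configuration with parameter `s`. -/
def dp (s : R) (i : Fin 4) (a : Fin 3) : Fin 4 → R := lpt i (pA s a) (pB s a)

lemma dp_eq_pt (s : R) (i : Fin 4) (a : Fin 3) : dp s i a = pt s i (![3, 4, 5] a) := by
  fin_cases a <;> rfl

lemma Psi_dp (P : Fin 4 → R) (s : R) (i : Fin 4) (a : Fin 3) : Psi s P (dp s i a) = 0 := by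
  rw [dp_eq_pt]
  apply Psi_pt
  fin_cases a <;> simp

lemma Psi_zero (P x : Fin 4 → R) : Psi (0 : R) P x = Phi P x := by
  simp [Psi, Psi', Phi, Phi']

lemma map_pA {R' : Type*} [CommRing R'] (φ : R →+* R') (s : R) (a : Fin 3) :
    φ (pA s a) = pA (φ s) a := by
  fin_cases a <;> simp [pA, map_ofNat]

lemma map_pB {R' : Type*} [CommRing R'] (φ : R →+* R') (s : R) (a : Fin 3) :
    φ (pB s a) = pB (φ s) a := by
  fin_cases a <;> simp [pB]

lemma map_dp {R' : Type*} [CommRing R'] (φ : R →+* R') (s : R) (i : Fin 4) (a : Fin 3)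
    (k : Fin 4) : φ (dp s i a k) = dp (φ s) i a k := by
  simp [dp, lpt, map_pA, map_pB]

end

lemma dp_ne_zero (s : ℂ) (i : Fin 4) (a : Fin 3) : dp s i a ≠ 0 := by
  rw [dp_eq_pt]
  exact pt_ne_zero _ _ _

/-- The parameters are good. -/
structure GoodS {n : ℕ} (s : Fin n → ℂ) : Prop where
  hA : ∀ j a, pA (s j) a ≠ 0
  hc : ∀ j a j' a', (j, a) ≠ (j', a') → pA (s j) a * pB (s j') a' - pA (s j') a' * pB (s j) a ≠ 0
  hw : ∀ j, s j = 0 ∨ 4 * s j * (s j ^ 2 - 1) * (9 * s j ^ 2 - 1) ≠ 0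

/-- The union of the `D₄` configurations with the parameters `s j`. -/
noncomputable def Zs {n : ℕ} (s : Fin n → ℂ) : Set P3 :=
  Set.range fun x : Fin 4 × Fin n × Fin 3 =>
    Projectivization.mk ℂ (dp (s x.2.1) x.1 x.2.2) (dp_ne_zero _ _ _)

variable {n : ℕ} {s : Fin n → ℂ}

lemma mem_Zs {x : V4} (hx : x ≠ 0) (h : Projectivization.mk ℂ x hx ∈ Zs s) :
    ∃ i j a, ∃ c : ℂ, c ≠ 0 ∧ x = c • dp (s j) i a := by
  obtain ⟨⟨i, j, a⟩, hij⟩ := h
  rw [Projectivization.mk_eq_mk_iff'] at hij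
  obtain ⟨c, hc⟩ := hij
  simp only at hc
  have hc0 : c ≠ 0 := by
    rintro rfl
    rw [zero_smul] at hc
    exact dp_ne_zero _ i a hc.symm
  refine ⟨i, j, a, c⁻¹, inv_ne_zero hc0, ?_⟩
  rw [← hc, smul_smul, inv_mul_cancel₀ hc0, one_smul]

lemma smul_dp_mem {c : ℂ} (i : Fin 4) (j : Fin n) (a : Fin 3) (hc : c • dp (s j) i a ≠ 0) :
    Projectivization.mk ℂ (c • dp (s j) i a) hc ∈ Zs s := by
  refine ⟨(i, j, a), ?_⟩
  rw [Projectivization.mk_eq_mk_iff']
  refine ⟨c⁻¹, ?_⟩
  have hc0 : c ≠ 0 := by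
    rintro rfl
    exact hc (zero_smul _ _)
  simp only
  rw [smul_smul, inv_mul_cancel₀ hc0, one_smul]

lemma ne_line (hs : GoodS s) {i k : Fin 4} (h : i ≠ k) (j j' : Fin n) (a a' : Fin 3) (c : ℂ) :
    dp (s j) i a ≠ c • dp (s j') k a' := by
  intro h1
  have h2 := ell_U (R := ℂ) i k h (pA (s j) a) (pB (s j) a)
  have h3 : ell (fun r => (U i k r : ℂ)) (dp (s j) i a) k = 0 := by
    rw [h1]
    have := ell_smul_add (fun r => (U i k r : ℂ)) (dp (s j') k a') c 0
    rw [zero_smul, add_zero] at this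
    rw [this, Pi.smul_apply, dp, ell_lpt_self, smul_zero]
  unfold dp at h3
  rw [h3] at h2
  exact hs.hA j a (by linear_combination -h2 / 2)

lemma ne_point (hs : GoodS s) {i : Fin 4} {j j' : Fin n} {a a' : Fin 3} (h : (j, a) ≠ (j', a'))
    (c : ℂ) : dp (s j) i a ≠ c • dp (s j') i a' := by
  intro h1
  obtain ⟨h2, h3⟩ := lpt_eq h1
  apply hs.hc j a j' a' h
  rw [h2, h3]
  ring

lemma dp_inj (hs : GoodS s) {i k : Fin 4} {j j' : Fin n} {a a' : Fin 3} {c : ℂ}
    (h : dp (s j) i a = c • dp (s j') k a') : i = k ∧ j = j' ∧ a = a' := by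
  by_cases hik : i = k
  · subst hik
    refine ⟨rfl, ?_⟩
    by_contra hj
    apply ne_point hs (i := i) (j := j) (j' := j') (a := a) (a' := a') _ c h
    intro h'
    exact hj (Prod.mk.inj h')
  · exact absurd h (ne_line hs hik j j' a a' c)

/-! ### General points -/

/-- The polynomial whose nonvanishing at `P` guarantees that `P` is general enough. -/
noncomputable def DS (s : Fin n → ℂ) : MvPolynomial (Fin 4) ℂ :=
  (∏ i : Fin 4, ∏ k : Fin 4, ∏ j : Fin n, ∏ a : Fin 3,
    if i = k then 1 else ell XX (fun r => C (dp (s j) i a r)) k) *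
  ∏ i : Fin 4, ∏ j : Fin n, Psi (C (s j)) XX (fun r => C (lpt i 0 1 r))

lemma DS_ne_zero (hs : GoodS s) : DS s ≠ 0 := by
  unfold DS
  refine mul_ne_zero ?_ ?_
  · rw [Finset.prod_ne_zero_iff]
    intro i _
    rw [Finset.prod_ne_zero_iff]
    intro k _
    rw [Finset.prod_ne_zero_iff]
    intro j _
    rw [Finset.prod_ne_zero_iff]
    intro a _
    split_ifs with h
    · exact one_ne_zero
    · intro h0
      have h1 := congrArg (eval fun r => (U i k r : ℂ)) h0
      rw [eval_ell, map_zero] at h1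
      unfold dp at h1
      rw [ell_U i k h] at h1
      exact hs.hA j a (by linear_combination h1 / 2)
  · rw [Finset.prod_ne_zero_iff]
    intro i _
    rw [Finset.prod_ne_zero_iff]
    intro j _ h0
    rcases hs.hw j with h | h
    · have h1 := congrArg (eval fun r => (U1 i r : ℂ)) h0
      rw [eval_Psi, map_zero, h, Psi_zero, Phi_U1] at h1
      norm_num at h1
    · have h1 := congrArg (eval fun r => (U2 i r : ℂ)) h0
      rw [eval_Psi, map_zero, Psi_U2] at h1
      exact h h1

lemma DS_general {P : V4} (h : eval P (DS s) ≠ 0) :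
    (∀ i k j a, i ≠ k → ell P (dp (s j) i a) k ≠ 0) ∧
      ∀ i j, Psi (s j) P (lpt i 0 1) ≠ 0 := by
  unfold DS at h
  rw [map_mul] at h
  have h1 := left_ne_zero_of_mul h
  have h2 := right_ne_zero_of_mul h
  constructor
  · intro i k j a hik
    rw [map_prod, Finset.prod_ne_zero_iff] at h1
    have h3 := h1 i (Finset.mem_univ _)
    rw [map_prod, Finset.prod_ne_zero_iff] at h3
    have h4 := h3 k (Finset.mem_univ _)
    rw [map_prod, Finset.prod_ne_zero_iff] at h4
    have h5 := h4 j (Finset.mem_univ _)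
    rw [map_prod, Finset.prod_ne_zero_iff] at h5
    have h6 := h5 a (Finset.mem_univ _)
    rw [if_neg hik, eval_ell] at h6
    exact h6
  · intro i j
    rw [map_prod, Finset.prod_ne_zero_iff] at h2
    have h3 := h2 i (Finset.mem_univ _)
    rw [map_prod, Finset.prod_ne_zero_iff] at h3
    have h4 := h3 j (Finset.mem_univ _)
    rw [eval_Psi] at h4
    exact h4

/-! ### The projection from a general point -/

open Pool.Agent.Helper26.LineArr (lin lin_isHomogeneous)

/-- The curve of degree `3 n`. -/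
noncomputable def GS (s : Fin n → ℂ) (P : V4) (σ : V3 →ₗ[ℂ] V4) : R3 :=
  ∏ j, Psi (C (s j)) (fun k => C (P k)) (xs σ)

lemma eval_GS (P : V4) (σ : V3 →ₗ[ℂ] V4) (y : V3) :
    eval y (GS s P σ) = ∏ j, Psi (s j) P (σ y) := by
  unfold GS
  rw [map_prod]
  refine Finset.prod_congr rfl fun j _ => ?_
  simp [Psi, Psi', aa, bb, eval_xs]

lemma GS_hom (P : V4) (σ : V3 →ₗ[ℂ] V4) : (GS s P σ).IsHomogeneous (n * 3) := by
  have h := IsHomogeneous.prod Finset.univ (fun j => Psi (C (s j)) (fun k => C (P k)) (xs σ))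
    (fun _ => 3) (fun j _ => Psi'_hom (aa_hom P σ) (bb_hom P σ))
  simpa [GS] using h

lemma geproci_S (hn : 0 < n) (hs : GoodS s) {P : V4} (hP : eval P (DS s) ≠ 0)
    {π : V4 →ₗ[ℂ] V3} (hπ : LinearMap.ker π = Submodule.span ℂ {P}) :
    IsCompleteIntersection (imageIdeal (Zs s) π) := by
  obtain ⟨gen1, gen2⟩ := DS_general hP
  have hsurj : LinearMap.range π = ⊤ := by
    apply Submodule.eq_top_of_finrank_eq
    have h1 := LinearMap.finrank_range_add_finrank_ker π
    have h2 : Module.finrank ℂ (LinearMap.ker π) ≤ 1 := by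
      rw [hπ]
      exact (finrank_span_le_card ({P} : Set V4)).trans (by simp)
    have h3 : Module.finrank ℂ (LinearMap.range π) ≤ Module.finrank ℂ V3 :=
      Submodule.finrank_le _
    have h4 : Module.finrank ℂ V4 = 4 := by simp
    have h5 : Module.finrank ℂ V3 = 3 := by simp
    omega
  obtain ⟨σ, hσ⟩ := LinearMap.exists_rightInverse_of_surjective π hsurj
  have hπσ : ∀ y, π (σ y) = y := fun y => by
    have := LinearMap.congr_fun hσ y
    simpa using this
  have hσπ : ∀ x, ∃ κ : ℂ, σ (π x) = x + κ • P := by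
    intro x
    have h1 : σ (π x) - x ∈ LinearMap.ker π := by
      rw [LinearMap.mem_ker, map_sub, hπσ, sub_self]
    rw [hπ, Submodule.mem_span_singleton] at h1
    obtain ⟨κ, hκ⟩ := h1
    exact ⟨κ, by rw [hκ]; abel⟩
  have hellx : ∀ x k, ∑ r, ell P (σ (Pi.single r 1)) k * π x r = ell P x k := by
    intro x k
    rw [ell_linear]
    obtain ⟨κ, hκ⟩ := hσπ x
    have := ell_smul_add P x 1 κ
    rw [one_smul, one_smul] at this
    rw [hκ, this]
  have hGGx : ∀ x (c : ℂ), eval (c • π x) (GS s P σ) =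
      ∏ j, (c ^ 3 * Psi (s j) P x) := by
    intro x c
    rw [eval_GS, map_smul]
    obtain ⟨κ, hκ⟩ := hσπ x
    rw [hκ, smul_add, smul_smul]
    exact Finset.prod_congr rfl fun j _ => Psi_smul_add _ _ _ _ _
  set a : Fin 4 → V3 := fun i r => ell P (σ (Pi.single r 1)) i with ha
  let q : Fin (n * 3) → Fin n × Fin 3 := finProdFinEquiv.symm
  have hq : Function.Injective q := finProdFinEquiv.symm.injective
  set w : Fin 4 → Fin (n * 3) → V3 := fun i l => π (dp (s (q l).1) i (q l).2) with hw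
  let l0 : Fin (n * 3) := ⟨0, by omega⟩
  have hoff : ∀ i k l, i ≠ k → ∑ r, a k r * w i l r ≠ 0 := by
    intro i k l hik
    rw [hellx]
    exact gen1 i k _ _ hik
  have haw : ∀ i l, ∑ r, a i r * w i l r = 0 := by
    intro i l
    rw [hellx, dp, ell_lpt_self]
  have hne : ∀ i : Fin 4, ∃ k, i ≠ k := by decide
  have H : Data a w (GS s P σ) := by
    refine ⟨?_, ?_, haw, hoff, ?_, GS_hom P σ, ?_, ?_⟩
    · intro i h0
      obtain ⟨k, hk⟩ := hne i
      apply hoff k i l0 hk.symm
      rw [h0]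
      simp
    · intro i j h0
      obtain ⟨k, hk⟩ := hne i
      apply hoff i k j hk
      rw [h0]
      simp
    · intro i l l' hll c hc
      have h1 : dp (s (q l).1) i (q l).2 - c • dp (s (q l').1) i (q l').2 ∈ LinearMap.ker π := by
        rw [LinearMap.mem_ker, map_sub, map_smul]
        change w i l - c • w i l' = 0
        rw [hc, sub_self]
      rw [hπ, Submodule.mem_span_singleton] at h1
      obtain ⟨κ, hκ⟩ := h1
      by_cases hκ0 : κ = 0
      · rw [hκ0, zero_smul] at hκ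
        refine ne_point hs (i := i) (j := (q l).1) (a := (q l).2) (j' := (q l').1)
          (a' := (q l').2) ?_ c (sub_eq_zero.mp hκ.symm)
        intro h'
        exact hll (hq h')
      · obtain ⟨k, hk⟩ := hne i
        apply gen1 k i (q l).1 (q l).2 hk.symm
        have hPl : P = lpt i (κ⁻¹ * (pA (s (q l).1) (q l).2 - c * pA (s (q l').1) (q l').2))
            (κ⁻¹ * (pB (s (q l).1) (q l).2 - c * pB (s (q l').1) (q l').2)) := by
          have : P = κ⁻¹ • (κ • P) := by rw [smul_smul, inv_mul_cancel₀ hκ0, one_smul]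
          rw [this, hκ]
          funext r
          simp only [dp, lpt, Pi.smul_apply, Pi.sub_apply, smul_eq_mul]
          ring
        rw [hPl, ell_lpt_left]
    · intro i l c _
      rw [hGGx]
      apply Finset.prod_eq_zero (Finset.mem_univ (q l).1)
      rw [Psi_dp, mul_zero]
    · intro i hdvd
      obtain ⟨p, hp⟩ := hdvd
      have h1 := congrArg (eval (π (lpt i 0 1))) hp
      rw [map_mul, eval_lin, hellx, ell_lpt_self, zero_mul] at h1
      have h2 := hGGx (lpt i 0 1) 1
      rw [one_smul, h1] at h2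
      have h3 := Finset.prod_eq_zero_iff.mp h2.symm
      obtain ⟨j, -, hj⟩ := h3
      rw [one_pow, one_mul] at hj
      exact gen2 i j hj
  refine ⟨∏ i, lin (a i), GS s P σ, 4, n * 3, by norm_num, by omega, ?_, GS_hom P σ,
    isRegular_of_data H 0 l0, ?_⟩
  · have := IsHomogeneous.prod Finset.univ (fun i => lin (a i)) (fun _ => 1)
      (fun i _ => lin_isHomogeneous _)
    simpa using this
  · apply le_antisymm
    · intro F hF
      apply mem_span_of_data H Finset.univ F
      intro i _ l c hc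
      have hc0 : c • dp (s (q l).1) i (q l).2 ≠ 0 := smul_ne_zero hc (dp_ne_zero _ _ _)
      have := hF (c • dp (s (q l).1) i (q l).2) hc0 (smul_dp_mem i _ _ hc0)
      rw [map_smul] at this
      exact this
    · intro F hF
      rw [Ideal.mem_span_pair] at hF
      obtain ⟨α, β, rfl⟩ := hF
      intro x hx hxZ
      obtain ⟨i, j, b, c, hc, rfl⟩ := mem_Zs hx hxZ
      have h1 : eval (π (c • dp (s j) i b)) (∏ i, lin (a i)) = 0 := by
        rw [map_prod]
        apply Finset.prod_eq_zero (Finset.mem_univ i)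
        rw [eval_lin, hellx]
        have := ell_smul_add P (dp (s j) i b) c 0
        rw [zero_smul, add_zero] at this
        rw [this, Pi.smul_apply, dp, ell_lpt_self, smul_zero]
      have h2 : eval (π (c • dp (s j) i b)) (GS s P σ) = 0 := by
        rw [map_smul, hGGx]
        apply Finset.prod_eq_zero (Finset.mem_univ j)
        rw [Psi_dp, mul_zero]
      rw [map_add, map_mul, map_mul, h1, h2]
      ring

lemma isGeproci_Zs (hn : 0 < n) (hs : GoodS s) : IsGeproci (Zs s) :=
  ⟨Set.finite_range _, DS s, DS_ne_zero hs, fun _ hP _ hπ => geproci_S hn hs hP hπ⟩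

/-! ### Non-triviality -/

lemma not_isGrid_Zs {j₀ : Fin n} (h0 : s j₀ = 0) : ¬ IsGrid (Zs s) := by
  intro h
  obtain ⟨c, hc0, hc⟩ := grid_quad h
  apply hc0
  have key : ∀ i a, quad c (dp (0 : ℂ) i a) = 0 := by
    intro i a
    apply hc _ (dp_ne_zero _ _ _)
    refine ⟨(i, j₀, a), ?_⟩
    simp only [h0]
  apply quad_eq_zero_of_Zt (t := 0)
  intro i j
  have h1 : ∃ a, pt (0 : ℂ) i j = dp 0 i a := by
    fin_cases j
    · exact ⟨0, by simp [pt, dp, al, be, pA, pB]⟩
    · exact ⟨1, by simp [pt, dp, al, be, pA, pB]⟩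
    · exact ⟨2, by simp [pt, dp, al, be, pA, pB]⟩
    · exact ⟨0, by simp [pt, dp, al, be, pA, pB]⟩
    · exact ⟨1, by simp [pt, dp, al, be, pA, pB]⟩
    · exact ⟨2, by simp [pt, dp, al, be, pA, pB]⟩
  obtain ⟨a, ha⟩ := h1
  rw [ha]
  exact key i a

lemma dp_zero (i : Fin 4) : dp (0 : ℂ) i 0 = Pi.single i 1 := by
  have h := pt_zero 0 i
  rw [← h]
  simp [pt, dp, al, be, pA, pB]

lemma not_isDegenerate_Zs {j₀ : Fin n} (h0 : s j₀ = 0) : ¬ IsDegenerate (Zs s) := by
  rintro ⟨φ, hφ, h⟩
  apply hφ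
  apply LinearMap.pi_ext'
  intro i
  ext
  have h1 := h (Projectivization.mk ℂ (dp (s j₀) i 0) (dp_ne_zero _ i 0)) ⟨(i, j₀, 0), rfl⟩
  obtain ⟨c, hc, hr⟩ := rep_mk (dp_ne_zero (s j₀) i 0)
  rw [hr, map_smul, smul_eq_mul] at h1
  have h2 := (mul_eq_zero.mp h1).resolve_left hc
  rw [h0, dp_zero] at h2
  simpa using h2

end Pool.Agent.Y744.GP
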